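import Pool.Agent.H.MP_e517fb_co.B

namespace Pool.Agent.Results.MP_e517fb_co.Yes

open Matrix

/-- the distance matrix of a graph: entry `(u, v)` is the graph distance from `u` to `v` -/
noncomputable def distMatrix {V : Type} (G : SimpleGraph V) : Matrix V V ℝ :=
  Matrix.of fun u v : V => (G.dist u v : ℝ)

theorem result :
    ∃ (V W : Type) (_ : Fintype V) (_ : DecidableEq V) (_ : Fintype W) (_ : DecidableEq W)
      (G : SimpleGraph V) (H : SimpleGraph W) (d : ℝ), G.Connected ∧ H.Connected ∧
        (distMatrix G).charpoly = (distMatrix H).charpoly ∧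
        IsGreatest {μ | (distMatrix G).charpoly.IsRoot μ} d ∧
        distMatrix G *ᵥ (fun _ => 1) = d • (fun _ => 1) ∧
        distMatrix H *ᵥ (fun _ => 1) ≠ d • (fun _ => 1) :=
  H.MP_e517fb_co.main

end Pool.Agent.Results.MP_e517fb_co.Yes
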